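import Mathlib
import Pool.Agent.H8.HY.DualChordal

/-!
# The Havet-Yu conjecture for dually chordal graphs and for graphs whose large vertices form such
# a graph

Let all degrees of the finite graph `G` be at most `D` and let `p ≥ 1`; a vertex is large if its
degree is at least `D / (2 p) + 1`. The conjecture of Havet and Yu is proved for `G` and `p`

* if `G` is dually chordal (for instance an interval graph, a strongly chordal graph, a forest),
* more generally if the large vertices form a dually chordal graph, or any graph which has a
  colouring with `D + 1` colours in which vertices at distance at most two get different colours,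
  and if (for example) every large vertex has at most `(1 - 1 / (2 p)) D + 1` large neighbours,
* if every large vertex has at most `√D` large neighbours.

Proof. Let `x` be a colouring of the large vertices with the colours `0, …, D`, different at
distance at most two. On a circle of `D + 2 p` labels the edge `u v` gets the label `x u + x v` and
the vertex `v` the label `x v - p`: the labels of the edges at `v` lie in the window
`x v, …, x v + D`. The labelling is extended to the other edges at the large vertices by the theorem
of Borodin, Kostochka and Woodall on list edge colourings of bipartite graphs, and to the rest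
greedily. For a dually chordal graph the colouring `x` is constructed along a maximum neighbourhood
ordering.
-/

set_option autoImplicit false

namespace Pool.Agent.Results.MP_b8729f_co.DuallyChordal

/-- `TotalLabeling G p l`: the graph `G` has a `(p,1)`-total labeling of span `l`, that is, labels
`0, …, l` for the vertices (`fV`) and the edges (`fE`) such that adjacent vertices get different
labels, edges sharing an endpoint get different labels, and the labels of a vertex and of an
incident edge differ by at least `p`. -/
def TotalLabeling {V : Type} (G : SimpleGraph V) (p l : ℕ) : Prop :=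
  ∃ (fV : V → ℕ) (fE : Sym2 V → ℕ),
    (∀ v, fV v ≤ l) ∧ (∀ e ∈ G.edgeSet, fE e ≤ l) ∧
    (∀ u v, G.Adj u v → fV u ≠ fV v) ∧
    (∀ u v w, G.Adj u v → G.Adj u w → v ≠ w → fE s(u, v) ≠ fE s(u, w)) ∧
    (∀ u v, G.Adj u v → (p : ℤ) ≤ |(fV u : ℤ) - (fE s(u, v) : ℤ)|)

/-- `CircularLabeling G p N`: a circular `(p,1)`-total labeling of `G` with the `N` labels
`0, …, N - 1` placed around a circle: as above, but the distance of the labels of a vertex and of
an incident edge, measured around the circle, is at least `p`
(so `p ≤ |fV u - fE uv| ≤ N - p`). -/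
def CircularLabeling {V : Type} (G : SimpleGraph V) (p N : ℕ) : Prop :=
  ∃ (fV : V → ℕ) (fE : Sym2 V → ℕ),
    (∀ v, fV v < N) ∧ (∀ e ∈ G.edgeSet, fE e < N) ∧
    (∀ u v, G.Adj u v → fV u ≠ fV v) ∧
    (∀ u v w, G.Adj u v → G.Adj u w → v ≠ w → fE s(u, v) ≠ fE s(u, w)) ∧
    (∀ u v, G.Adj u v → (p : ℤ) ≤ |(fV u : ℤ) - (fE s(u, v) : ℤ)| ∧
      |(fV u : ℤ) - (fE s(u, v) : ℤ)| ≤ (N : ℤ) - p)

/-- `HavetYu G D p`: `G` has a circular `(p,1)`-total labeling with `D + 2 p` labels and a
`(p,1)`-total labeling of span `D + 2 p - 1`. -/
def HavetYu {V : Type} (G : SimpleGraph V) (D p : ℕ) : Prop :=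
  CircularLabeling G p (D + 2 * p) ∧ TotalLabeling G p (D + 2 * p - 1)

/-- The vertex `v` is large: its degree is at least `D / (2 p) + 1`. -/
def Large {V : Type} (G : SimpleGraph V) (D p : ℕ) (v : V) : Prop :=
  D + 2 * p ≤ 2 * p * (G.neighborSet v).ncard

/-- The number of large neighbours of `v`. -/
noncomputable def largeNbrs {V : Type} (G : SimpleGraph V) (D p : ℕ) (v : V) : ℕ :=
  {w | G.Adj v w ∧ Large G D p w}.ncard

/-- The subgraph of `G` formed by the edges both of whose ends are in `T`. -/
def inside {V : Type} (G : SimpleGraph V) (T : Set V) : SimpleGraph V where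
  Adj u v := G.Adj u v ∧ u ∈ T ∧ v ∈ T
  symm := ⟨fun _ _ h => ⟨h.1.symm, h.2.2, h.2.1⟩⟩
  loopless := ⟨fun a h => G.loopless.irrefl a h.1⟩

/-- `G` has a colouring with the colours `0, …, D` in which adjacent vertices and vertices with a
common neighbour get different colours. -/
def SquareColouring {V : Type} (G : SimpleGraph V) (D : ℕ) : Prop :=
  ∃ x : V → ℕ, (∀ v, x v ≤ D) ∧ (∀ u v, G.Adj u v → x u ≠ x v) ∧
    ∀ u v w, G.Adj u v → G.Adj u w → v ≠ w → x v ≠ x w

/-- `G` is dually chordal: it has a maximum neighbourhood ordering, that is, its vertices can be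
ordered (by `ord`) such that for every vertex `v` there is a vertex `u`, equal to `v` or a later
neighbour of `v`, such that among the vertices which are not before `v` the closed neighbourhood of
every vertex `w` of the closed neighbourhood of `v` is contained in the closed neighbourhood
of `u`. -/
def DuallyChordal {V : Type} (G : SimpleGraph V) : Prop :=
  ∃ ord : V → ℕ, Function.Injective ord ∧ ∀ v, ∃ u, ord v ≤ ord u ∧ (u = v ∨ G.Adj v u) ∧
    ∀ w z, ord v ≤ ord w → ord v ≤ ord z → (w = v ∨ G.Adj v w) → (z = w ∨ G.Adj w z) →
      (z = u ∨ G.Adj u z)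

theorem both {V : Type} (G : SimpleGraph V) (D p : ℕ)
    (h : Pool.Agent.H8.HY.Circ G p (D + 2 * p)) : HavetYu G D p := by
  obtain ⟨fV, fE, h1, h2, h3, h4, h5⟩ := h
  exact ⟨⟨fV, fE, h1, h2, h3, h4, h5⟩, fV, fE, fun v => Nat.le_sub_one_of_lt (h1 v),
    fun e he => Nat.le_sub_one_of_lt (h2 e he), h3, h4, fun u v huv => (h5 u v huv).1⟩

/-- **The Havet-Yu conjecture for dually chordal graphs and beyond.** Let `G` be a finite graph with
all degrees at most `D` and let `p ≥ 1`. A vertex is large if its degree is at least
`D / (2 p) + 1`.

(1) If `G` is dually chordal, then `G` has a circular `(p,1)`-total labeling with `D + 2 p` labels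
and a `(p,1)`-total labeling of span `D + 2 p - 1`.

(2) This holds if the graph of the large vertices is dually chordal, or has a colouring with `D + 1`
colours which are different at distance at most two, and every large vertex has at most
`(1 - 1 / (2 p)) D + 1` large neighbours.

(3) This holds if every large vertex has at most `√D` large neighbours.

(4) Instead of the bound on the numbers of large neighbours in (2) the following suffices: some set
`T` contains all large vertices, the graph of the edges inside `T` has the colouring, and for every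
edge `u v` with `u` outside `T` and `v` in `T` the numbers of neighbours of `u` and of `v` in `T`
add up to at most `D + 1`. -/
theorem result :
    (∀ (V : Type) [Fintype V] (G : SimpleGraph V) (D p : ℕ), 1 ≤ p →
      (∀ v, (G.neighborSet v).ncard ≤ D) → DuallyChordal G → HavetYu G D p) ∧
    (∀ (V : Type) [Fintype V] (G : SimpleGraph V) (D p : ℕ), 1 ≤ p →
      (∀ v, (G.neighborSet v).ncard ≤ D) →
      (DuallyChordal (inside G {v | Large G D p v}) ∨
        SquareColouring (inside G {v | Large G D p v}) D) →
      (∀ v, Large G D p v → 2 * p * largeNbrs G D p v ≤ (2 * p - 1) * D + 2 * p) →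
      HavetYu G D p) ∧
    (∀ (V : Type) [Fintype V] (G : SimpleGraph V) (D p k : ℕ), 1 ≤ p →
      (∀ v, (G.neighborSet v).ncard ≤ D) → k ^ 2 ≤ D →
      (∀ v, Large G D p v → largeNbrs G D p v ≤ k) → HavetYu G D p) ∧
    (∀ (V : Type) [Fintype V] (G : SimpleGraph V) (D p : ℕ) (T : Set V), 1 ≤ p →
      (∀ v, (G.neighborSet v).ncard ≤ D) → (∀ v, Large G D p v → v ∈ T) →
      (∀ u v, G.Adj u v → u ∉ T → v ∈ T →
        (G.neighborSet u ∩ T).ncard + (G.neighborSet v ∩ T).ncard ≤ D + 1) →
      SquareColouring (inside G T) D → HavetYu G D p) := by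
  refine ⟨?_, ?_, ?_, ?_⟩
  · intro V _ G D p hp hD ⟨ord, h⟩
    exact both G D p ((Pool.Agent.H8.HY.sqcol_of_maxNbr G D hD ord h).window.circ p hp)
  · intro V _ G D p hp hD h hb
    have h' : Pool.Agent.H8.HY.SqCol
        (Pool.Agent.H8.HY.inside G {v | Pool.Agent.H8.HY.Large G D p v}) D := by
      rcases h with ⟨ord, h⟩ | h
      · refine Pool.Agent.H8.HY.sqcol_of_maxNbr _ D (fun v => ?_) ord h
        refine (Set.ncard_le_ncard ?_ (Set.toFinite _)).trans (hD v)
        intro w hw
        exact hw.1
      · exact h
    refine both G D p (Pool.Agent.H8.HY.sq_reduction G D p _ hp hD (fun v hv => hv) ?_ h')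
    intro u v huv hu hv
    exact Pool.Agent.H8.HY.cross_of G D p hp u v hu (hb v hv)
  · intro V _ G D p k hp hD hk h
    exact both G D p (Pool.Agent.H8.HY.sqrt_large G D p k hp hD hk h)
  · intro V _ G D p T hp hD hT hcross h
    exact both G D p (Pool.Agent.H8.HY.sq_reduction G D p T hp hD hT hcross h)

end Pool.Agent.Results.MP_b8729f_co.DuallyChordal
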