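import Mathlib
import Pool.Agent.H8.HY.Large

/-!
# The Havet-Yu conjecture when large vertices have few large neighbours

Let all degrees of the finite graph `G` be at most `D`, let `p ≥ 1`, and call a vertex large if its
degree is at least `D / (2 p) + 1`. The conjecture of Havet and Yu is proved for `G`

* if at most `(1 - 1 / (2 p)) D + 2` vertices are large,
* if `D ≥ C p ^ 2` and every large vertex has at most `(1 - 1 / (2 p)) D + 1` large neighbours,
* for all `p` and `D`, if for some `b ≥ C p` every vertex which is not large has at most `b`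
  large neighbours and every large vertex has at most `D + 1 - b` large neighbours.

Proof. Label first the graph of the large vertices with `D + 2 p` labels on a circle (for this
graph, whose degrees are at most `D + 1 - b`, one has labelings with `D + 1 - b + C p` labels; this
is the theorem `LinearError` of the library). Then label the edges between the large and the other
vertices: at the large end `v` there are `D + 1` labels which are far from the label of `v`, and
these edges form a bipartite graph, so a labelling extends by the theorem of Borodin, Kostochka and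
Woodall on list edge colourings of bipartite graphs. Finally label the other edges greedily, and
then the other vertices greedily, each label of an edge excludes at most `2 p - 1` labels.
-/

set_option autoImplicit false

namespace Pool.Agent.Results.MP_b8729f_co.LargeNeighbours

/-- `TotalLabeling G p l`: the graph `G` has a `(p,1)`-total labeling of span `l`, that is, labels
`0, …, l` for the vertices (`fV`) and the edges (`fE`) such that adjacent vertices get different
labels, edges sharing an endpoint get different labels, and the labels of a vertex and of an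
incident edge differ by at least `p`. -/
def TotalLabeling {V : Type} (G : SimpleGraph V) (p l : ℕ) : Prop :=
  ∃ (fV : V → ℕ) (fE : Sym2 V → ℕ),
    (∀ v, fV v ≤ l) ∧ (∀ e ∈ G.edgeSet, fE e ≤ l) ∧
    (∀ u v, G.Adj u v → fV u ≠ fV v) ∧
    (∀ u v w, G.Adj u v → G.Adj u w → v ≠ w → fE s(u, v) ≠ fE s(u, w)) ∧
    (∀ u v, G.Adj u v → (p : ℤ) ≤ |(fV u : ℤ) - (fE s(u, v) : ℤ)|)

/-- `CircularLabeling G p N`: a circular `(p,1)`-total labeling of `G` with the `N` labels
`0, …, N - 1` placed around a circle: as above, but the distance of the labels of a vertex and of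
an incident edge, measured around the circle, is at least `p`
(so `p ≤ |fV u - fE uv| ≤ N - p`). -/
def CircularLabeling {V : Type} (G : SimpleGraph V) (p N : ℕ) : Prop :=
  ∃ (fV : V → ℕ) (fE : Sym2 V → ℕ),
    (∀ v, fV v < N) ∧ (∀ e ∈ G.edgeSet, fE e < N) ∧
    (∀ u v, G.Adj u v → fV u ≠ fV v) ∧
    (∀ u v w, G.Adj u v → G.Adj u w → v ≠ w → fE s(u, v) ≠ fE s(u, w)) ∧
    (∀ u v, G.Adj u v → (p : ℤ) ≤ |(fV u : ℤ) - (fE s(u, v) : ℤ)| ∧
      |(fV u : ℤ) - (fE s(u, v) : ℤ)| ≤ (N : ℤ) - p)

/-- `HavetYu G D p`: `G` has a circular `(p,1)`-total labeling with `D + 2 p` labels and a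
`(p,1)`-total labeling of span `D + 2 p - 1`. -/
def HavetYu {V : Type} (G : SimpleGraph V) (D p : ℕ) : Prop :=
  CircularLabeling G p (D + 2 * p) ∧ TotalLabeling G p (D + 2 * p - 1)

/-- The vertex `v` is large: its degree is at least `D / (2 p) + 1`. -/
def Large {V : Type} (G : SimpleGraph V) (D p : ℕ) (v : V) : Prop :=
  D + 2 * p ≤ 2 * p * (G.neighborSet v).ncard

/-- The number of large neighbours of `v`. -/
noncomputable def largeNbrs {V : Type} (G : SimpleGraph V) (D p : ℕ) (v : V) : ℕ :=
  {w | G.Adj v w ∧ Large G D p w}.ncard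

/-- The subgraph of `G` formed by the edges both of whose ends are in `T`. -/
def inside {V : Type} (G : SimpleGraph V) (T : Set V) : SimpleGraph V where
  Adj u v := G.Adj u v ∧ u ∈ T ∧ v ∈ T
  symm := ⟨fun _ _ h => ⟨h.1.symm, h.2.2, h.2.1⟩⟩
  loopless := ⟨fun a h => G.loopless.irrefl a h.1⟩

theorem both {V : Type} (G : SimpleGraph V) (D p : ℕ)
    (h : Pool.Agent.H8.HY.Circ G p (D + 2 * p)) : HavetYu G D p := by
  obtain ⟨fV, fE, h1, h2, h3, h4, h5⟩ := h
  exact ⟨⟨fV, fE, h1, h2, h3, h4, h5⟩, fV, fE, fun v => Nat.le_sub_one_of_lt (h1 v),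
    fun e he => Nat.le_sub_one_of_lt (h2 e he), h3, h4, fun u v huv => (h5 u v huv).1⟩

/-- **The Havet-Yu conjecture when large vertices have few large neighbours.** Let `G` be a finite
graph with all degrees at most `D` and let `p ≥ 1`. A vertex is large if its degree is at least
`D / (2 p) + 1`.

(1) Let `T` be a set of vertices which contains all large vertices, such that for every edge `u v`
with `u` outside `T` and `v` in `T` the numbers of neighbours of `u` and of `v` in `T` add up to
at most `D + 1`. If the graph of the edges inside `T` has a circular `(p,1)`-total labeling with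
`D + 2 p` labels, then so has `G`.

(2) If there are at most `D + 1` large vertices and for every edge `u v` with `v` large and `u` not
large `u` and `v` have together at most `D + 1` large neighbours, then the conjecture holds for `G`.
This is the case if there are at most `(1 - 1 / (2 p)) D + 2` large vertices.

(3) There is a constant `C` (not depending on `G`, `D`, `p`) such that, if for some `b ≥ C p` every
vertex which is not large has at most `b` large neighbours and every large vertex has at most
`D + 1 - b` large neighbours, then the conjecture holds for `G`.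

(4) There is a constant `C` such that, if `D ≥ C p ^ 2` and every large vertex has at most
`(1 - 1 / (2 p)) D + 1` large neighbours, then the conjecture holds for `G`.

(5) There is a constant `C` such that in (3) it is enough that
`b ≥ C (√D + p ^ (2/3) (log D) ^ (1/3) + p ^ 2 / D)`. -/
theorem result :
    (∀ (V : Type) [Fintype V] (G : SimpleGraph V) (D p : ℕ) (T : Set V), 1 ≤ p →
      (∀ v, (G.neighborSet v).ncard ≤ D) → (∀ v, Large G D p v → v ∈ T) →
      (∀ u v, G.Adj u v → u ∉ T → v ∈ T →
        (G.neighborSet u ∩ T).ncard + (G.neighborSet v ∩ T).ncard ≤ D + 1) →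
      CircularLabeling (inside G T) p (D + 2 * p) → HavetYu G D p) ∧
    (∀ (V : Type) [Fintype V] (G : SimpleGraph V) (D p : ℕ), 1 ≤ p →
      (∀ v, (G.neighborSet v).ncard ≤ D) →
      (({v | Large G D p v}.ncard ≤ D + 1 →
        (∀ u v, G.Adj u v → ¬ Large G D p u → Large G D p v →
          largeNbrs G D p u + largeNbrs G D p v ≤ D + 1) → HavetYu G D p) ∧
      (2 * p * {v | Large G D p v}.ncard ≤ (2 * p - 1) * D + 4 * p → HavetYu G D p))) ∧
    (∃ C : ℕ, ∀ (V : Type) [Fintype V] (G : SimpleGraph V) (D p b : ℕ), 1 ≤ p →
      (∀ v, (G.neighborSet v).ncard ≤ D) → C * p ≤ b →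
      (∀ v, ¬ Large G D p v → largeNbrs G D p v ≤ b) →
      (∀ v, Large G D p v → largeNbrs G D p v + b ≤ D + 1) → HavetYu G D p) ∧
    (∃ C : ℕ, ∀ (V : Type) [Fintype V] (G : SimpleGraph V) (D p : ℕ), 1 ≤ p →
      (∀ v, (G.neighborSet v).ncard ≤ D) → C * p ^ 2 ≤ D →
      (∀ v, Large G D p v → 2 * p * largeNbrs G D p v ≤ (2 * p - 1) * D + 2 * p) →
      HavetYu G D p) ∧
    (∃ C : ℝ, ∀ (V : Type) [Fintype V] (G : SimpleGraph V) (D p b : ℕ), 1 ≤ p →
      (∀ v, (G.neighborSet v).ncard ≤ D) →
      C * (Real.sqrt D + (p : ℝ) ^ (2 / 3 : ℝ) * Real.log D ^ (1 / 3 : ℝ) +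
        (p : ℝ) ^ 2 / D) ≤ b →
      (∀ v, ¬ Large G D p v → largeNbrs G D p v ≤ b) →
      (∀ v, Large G D p v → largeNbrs G D p v + b ≤ D + 1) → HavetYu G D p) := by
  refine ⟨?_, ?_, ?_, ?_, ?_⟩
  · intro V _ G D p T hp hD hT hcross h
    exact both G D p (Pool.Agent.H8.HY.reduction G D p T hp hD hT hcross h)
  · intro V _ G D p hp hD
    exact ⟨fun h1 h2 => both G D p (Pool.Agent.H8.HY.few G D p hp hD h1 h2),
      fun h => both G D p (Pool.Agent.H8.HY.few' G D p hp hD h)⟩
  · obtain ⟨C, hC⟩ := Pool.Agent.H8.HY.local_linear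
    exact ⟨C, fun V _ G D p b hp hD hb h1 h2 => both G D p (hC V G D p b hp hD hb h1 h2)⟩
  · obtain ⟨C, hC⟩ := Pool.Agent.H8.HY.local_fixed
    exact ⟨C, fun V _ G D p hp hD hb h => both G D p (hC V G D p hp hD hb h)⟩
  · obtain ⟨C, hC⟩ := Pool.Agent.H8.HY.local_second
    exact ⟨C, fun V _ G D p b hp hD hb h1 h2 => both G D p (hC V G D p b hp hD hb h1 h2)⟩

end Pool.Agent.Results.MP_b8729f_co.LargeNeighbours
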