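import Mathlib
import Pool.Agent.H8.HV.Spread

/-!
# The Havet-Yu conjecture for all graphs and all p between (1 - 1/600) D and D

Let `G` be a finite graph with all degrees at most `D`, and let `p = D - k`, where `1 ≤ k ≤ D / 600`.
Then `G` has a `(p,1)`-total labeling of span `D + 2 p - 1`, as conjectured by Havet and Yu. There is
no other hypothesis on `G`. (The case `p ≥ D` is a theorem of Havet and Yu.)

Proof. Colour as many vertices as possible with `p` colours. An uncoloured vertex `z` sees all the
classes, hence all but `k` of them only once, and it can be exchanged with its only neighbour in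
such a class. If every uncoloured vertex is exchanged in a random class (with a rule for conflicts),
then with positive probability no vertex has more than `D / 2` uncoloured neighbours: for a vertex
`u` the uncoloured vertices which see only `u` in its class form a clique, since the colouring is a
maximum one, so at most `k + 1` of them can be exchanged with `u`; now use the local lemma. The
classes get the labels `0, …, p - 1` (such that every vertex sees all smaller labels), and the
uncoloured vertices the labels `p, p + 1, …, D`, each time using a maximum independent set of the
rest.

The edge labels `0, …, k` may be used between vertices with labels at least `p`: by Tutte's theorem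
a vertex with label `p + j` gets at least `j` of them (`spart`). The labels
`D + p - 1 - t`, `t = 0, …, k`, are given to matchings which contain all the vertices with labels
between `13 D / 16` and `D - t - 1` and all the vertices of large degree almost all of whose
neighbours have such labels (`astep`, by a weighted form of Hall's theorem). The labels between
`p + 13 D / 16 - 1` and `D + p - k - 2` are used for a graph in which the remaining vertices with
many neighbours with small labels have degree at least `2 k + 1` (`phaseB`). Then all the vertices
have at most `p` edges left, those with exactly `p` edges left have a label at least `p` and at most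
`k` neighbours of this kind, and they have a neighbour with at most `p - k - 1` edges left. So the
rest has an edge colouring with `p` colours by Vizing's adjacency lemma (`color`), which gives the
labels `D + p, …, D + 2 p - 1`.
-/

set_option autoImplicit false

namespace Pool.Agent.Results.MP_b8729f_co.LargeP

/-- `TotalLabeling G p l`: the graph `G` has a `(p,1)`-total labeling of span `l`, that is, labels
`0, …, l` for the vertices (`fV`) and the edges (`fE`) such that adjacent vertices get different
labels, edges sharing an endpoint get different labels, and the labels of a vertex and of an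
incident edge differ by at least `p`. -/
def TotalLabeling {V : Type} (G : SimpleGraph V) (p l : ℕ) : Prop :=
  ∃ (fV : V → ℕ) (fE : Sym2 V → ℕ),
    (∀ v, fV v ≤ l) ∧ (∀ e ∈ G.edgeSet, fE e ≤ l) ∧
    (∀ u v, G.Adj u v → fV u ≠ fV v) ∧
    (∀ u v w, G.Adj u v → G.Adj u w → v ≠ w → fE s(u, v) ≠ fE s(u, w)) ∧
    (∀ u v, G.Adj u v → (p : ℤ) ≤ |(fV u : ℤ) - (fE s(u, v) : ℤ)|)

open scoped Classical in
/-- The Havet-Yu conjecture for all graphs and all `p` with `(1 - 1/600) D ≤ p < D`, where `D` is
the maximum degree or any larger number. -/
theorem result : ∀ (V : Type) [Fintype V] (G : SimpleGraph V) (D p : ℕ),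
    (∀ v, G.degree v ≤ D) → p < D → 599 * D ≤ 600 * p →
      TotalLabeling G p (D + 2 * p - 1) := by
  intro V _ G D p hD hp h600
  obtain ⟨f, m, h1, h2, h3, h4, h5⟩ :=
    Pool.Agent.H8.HV.main G D (D - p) hD (by omega) (by omega)
  have hpp : D - (D - p) = p := by omega
  rw [hpp] at h3 h5
  have hex : ∀ e : Sym2 V, ∃ a : ℕ, e ∈ G.edgeSet → ∀ u v, e = s(u, v) → m a u = v := by
    intro e
    by_cases he : e ∈ G.edgeSet
    · induction e using Sym2.ind with
      | _ u v =>
        obtain ⟨a, ha⟩ := h4 u v he
        refine ⟨a, fun _ x y hxy => ?_⟩
        rcases Sym2.eq_iff.1 hxy with ⟨rfl, rfl⟩ | ⟨rfl, rfl⟩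
        · exact ha
        · rw [← ha, h3.inv]
    · exact ⟨0, fun h => absurd h he⟩
  choose g hg using hex
  have hgu : ∀ u v, G.Adj u v → m (g s(u, v)) u = v := fun u v huv => hg _ huv u v rfl
  have hne : ∀ u v, G.Adj u v → m (g s(u, v)) u ≠ u := by
    intro u v huv
    rw [hgu u v huv]
    exact huv.ne'
  refine ⟨f, g, fun v => ?_, fun e he => ?_, h1, fun u v w huv huw hvw e => ?_,
    fun u v huv => ?_⟩
  · have := h2 v
    omega
  · induction e using Sym2.ind with
    | _ u v =>
      have := (h3.adj _ u (hne u v he)).2
      omega
  · have e1 := hgu u v huv
    rw [e, hgu u w huw] at e1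
    exact hvw e1.symm
  · rcases h5 _ u (hne u v huv) with h | h
    · rw [abs_of_nonneg (by omega)]
      omega
    · rw [abs_of_nonpos (by omega)]
      omega

end Pool.Agent.Results.MP_b8729f_co.LargeP
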