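import Mathlib
import Pool.Agent.H8.HY.Windows

/-!
# The Havet-Yu conjecture for split graphs

Every split graph (a graph whose vertices can be divided into a clique and an independent set)
with all degrees at most `D` has, for every `p ≥ 1`, a circular `(p,1)`-total labeling with
`D + 2 p` labels, and so a `(p,1)`-total labeling of span `D + 2 p - 1`. The same holds for every
graph in which the vertices of degree at least `D / (2 p) + 1` are pairwise adjacent, and in
general if there is a set `T` of vertices such that every vertex `v` of `T` has at most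
`D - deg v` non-neighbours in `T` (other than `v`) and every vertex outside `T` with a
neighbour outside `T` has degree less than `D / (2 p) + 1`.

Proof. Number the vertices of `T` by positions `x v = 0, …, k - 1`. The edges inside `T` get the
labels `x u + x v`. The edges which leave `T` are labelled in the order of decreasing positions:
by Hall's theorem the edges from `v` to the outside can get the labels
`x v + k, …, x v + k + d - 1`, where `d ≤ D + 1 - k` is their number, since the label
`x v + k + j` is used by at most `j` vertices of larger position. So the labels at `v` lie in the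
window `x v, …, x v + D` and `v` gets the label `x v - p`. The labels at the vertices outside `T`
all of whose neighbours are in `T` lie in the window `k, …, k + D - 1`, and these vertices get
the label `k - p`. The remaining edges and vertices are labelled greedily. (All labels modulo
`D + 2 p`.)
-/

set_option autoImplicit false

namespace Pool.Agent.Results.MP_b8729f_co.SplitGraphs

/-- `TotalLabeling G p l`: the graph `G` has a `(p,1)`-total labeling of span `l`, that is, labels
`0, …, l` for the vertices (`fV`) and the edges (`fE`) such that adjacent vertices get different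
labels, edges sharing an endpoint get different labels, and the labels of a vertex and of an
incident edge differ by at least `p`. -/
def TotalLabeling {V : Type} (G : SimpleGraph V) (p l : ℕ) : Prop :=
  ∃ (fV : V → ℕ) (fE : Sym2 V → ℕ),
    (∀ v, fV v ≤ l) ∧ (∀ e ∈ G.edgeSet, fE e ≤ l) ∧
    (∀ u v, G.Adj u v → fV u ≠ fV v) ∧
    (∀ u v w, G.Adj u v → G.Adj u w → v ≠ w → fE s(u, v) ≠ fE s(u, w)) ∧
    (∀ u v, G.Adj u v → (p : ℤ) ≤ |(fV u : ℤ) - (fE s(u, v) : ℤ)|)

/-- `CircularLabeling G p N`: a circular `(p,1)`-total labeling of `G` with the `N` labels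
`0, …, N - 1` placed around a circle: as above, but the distance of the labels of a vertex and of
an incident edge, measured around the circle, is at least `p`
(so `p ≤ |fV u - fE uv| ≤ N - p`). -/
def CircularLabeling {V : Type} (G : SimpleGraph V) (p N : ℕ) : Prop :=
  ∃ (fV : V → ℕ) (fE : Sym2 V → ℕ),
    (∀ v, fV v < N) ∧ (∀ e ∈ G.edgeSet, fE e < N) ∧
    (∀ u v, G.Adj u v → fV u ≠ fV v) ∧
    (∀ u v w, G.Adj u v → G.Adj u w → v ≠ w → fE s(u, v) ≠ fE s(u, w)) ∧
    (∀ u v, G.Adj u v → (p : ℤ) ≤ |(fV u : ℤ) - (fE s(u, v) : ℤ)| ∧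
      |(fV u : ℤ) - (fE s(u, v) : ℤ)| ≤ (N : ℤ) - p)

theorem both {V : Type} (G : SimpleGraph V) (p D : ℕ)
    (h : Pool.Agent.H8.HY.Circ G p (D + 2 * p)) :
    CircularLabeling G p (D + 2 * p) ∧ TotalLabeling G p (D + 2 * p - 1) := by
  obtain ⟨fV, fE, h1, h2, h3, h4, h5⟩ := h
  exact ⟨⟨fV, fE, h1, h2, h3, h4, h5⟩, fV, fE, fun v => Nat.le_sub_one_of_lt (h1 v),
    fun e he => Nat.le_sub_one_of_lt (h2 e he), h3, h4, fun u v huv => (h5 u v huv).1⟩

theorem main (V : Type) [Fintype V] (G : SimpleGraph V) (D p : ℕ) (T : Set V) (hp : 1 ≤ p)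
    (hT : ∀ v ∈ T, {w | w ∈ T ∧ w ≠ v ∧ ¬ G.Adj v w}.ncard + (G.neighborSet v).ncard ≤ D)
    (hW : ∀ v w, v ∉ T → w ∉ T → G.Adj v w → 2 * p * (G.neighborSet v).ncard < D + 2 * p) :
    CircularLabeling G p (D + 2 * p) ∧ TotalLabeling G p (D + 2 * p - 1) := by
  classical
  apply both
  apply Pool.Agent.H8.HY.windows G p D hp T
  · intro v hv
    have e1 := hT v hv
    -- `T` consists of `v`, its neighbours in `T`, and its other non-neighbours in `T`
    have e2 : (G.neighborSet v ∩ T).ncard + (G.neighborSet v ∩ Tᶜ).ncard =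
        (G.neighborSet v).ncard := by
      rw [← Set.ncard_union_eq ?_ (Set.toFinite _) (Set.toFinite _)]
      · congr 1
        ext w
        simp only [Set.mem_union, Set.mem_inter_iff, Set.mem_compl_iff]
        tauto
      · rw [Set.disjoint_left]
        intro w h1 h2
        exact h2.2 h1.2
    have e3 : T ⊆ insert v ((G.neighborSet v ∩ T) ∪ {w | w ∈ T ∧ w ≠ v ∧ ¬ G.Adj v w}) := by
      intro w hw
      rw [Set.mem_insert_iff]
      by_cases h : w = v
      · exact Or.inl h
      · right
        by_cases h' : G.Adj v w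
        · exact Or.inl ⟨h', hw⟩
        · exact Or.inr ⟨hw, h, h'⟩
    have e4 := Set.ncard_le_ncard e3 (Set.toFinite _)
    have e5 := Set.ncard_insert_le v
      ((G.neighborSet v ∩ T) ∪ {w | w ∈ T ∧ w ≠ v ∧ ¬ G.Adj v w})
    have e6 := Set.ncard_union_le (G.neighborSet v ∩ T) {w | w ∈ T ∧ w ≠ v ∧ ¬ G.Adj v w}
    omega
  · intro v hv hne
    obtain ⟨w, hw1, hw2⟩ := hne
    exact hW v w hv hw2 hw1

/-- **The Havet-Yu conjecture for split graphs.** Let `G` be a finite graph with all degrees at
most `D` and let `p ≥ 1`.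

(1) Let `T` be a set of vertices such that the degree of every `v ∈ T` plus the number of
vertices `w ≠ v` in `T` which are not adjacent to `v` is at most `D`, and such that every vertex
outside `T` which has a neighbour outside `T` has degree less than `D / (2 p) + 1`. Then `G` has
a circular `(p,1)`-total labeling with `D + 2 p` labels and a `(p,1)`-total labeling of span
`D + 2 p - 1`.

(2) The same holds if `G` is a split graph: `K` is a clique and the vertices outside `K` are
pairwise not adjacent.

(3) The same holds if the vertices of degree at least `D / (2 p) + 1` are pairwise adjacent. -/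
theorem result :
    (∀ (V : Type) [Fintype V] (G : SimpleGraph V) (D p : ℕ) (T : Set V), 1 ≤ p →
      (∀ v, (G.neighborSet v).ncard ≤ D) →
      (∀ v ∈ T, {w | w ∈ T ∧ w ≠ v ∧ ¬ G.Adj v w}.ncard + (G.neighborSet v).ncard ≤ D) →
      (∀ v w, v ∉ T → w ∉ T → G.Adj v w → 2 * p * (G.neighborSet v).ncard < D + 2 * p) →
      CircularLabeling G p (D + 2 * p) ∧ TotalLabeling G p (D + 2 * p - 1)) ∧
    (∀ (V : Type) [Fintype V] (G : SimpleGraph V) (D p : ℕ) (K : Set V), 1 ≤ p →
      (∀ v, (G.neighborSet v).ncard ≤ D) →
      (∀ v ∈ K, ∀ w ∈ K, v ≠ w → G.Adj v w) → (∀ v w, v ∉ K → w ∉ K → ¬ G.Adj v w) →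
      CircularLabeling G p (D + 2 * p) ∧ TotalLabeling G p (D + 2 * p - 1)) ∧
    (∀ (V : Type) [Fintype V] (G : SimpleGraph V) (D p : ℕ), 1 ≤ p →
      (∀ v, (G.neighborSet v).ncard ≤ D) →
      (∀ v w, v ≠ w → D + 2 * p ≤ 2 * p * (G.neighborSet v).ncard →
        D + 2 * p ≤ 2 * p * (G.neighborSet w).ncard → G.Adj v w) →
      CircularLabeling G p (D + 2 * p) ∧ TotalLabeling G p (D + 2 * p - 1)) := by
  have hempty : ∀ (V : Type) [Fintype V] (G : SimpleGraph V) (K : Set V) (v : V), v ∈ K →
      (∀ v ∈ K, ∀ w ∈ K, v ≠ w → G.Adj v w) →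
      {w | w ∈ K ∧ w ≠ v ∧ ¬ G.Adj v w}.ncard = 0 := by
    intro V _ G K v hv hK
    rw [Set.ncard_eq_zero (Set.toFinite _)]
    ext w
    simp only [Set.mem_ofPred_eq, Set.mem_empty_iff_false, iff_false]
    rintro ⟨h1, h2, h3⟩
    exact h3 (hK v hv w h1 h2.symm)
  refine ⟨?_, ?_, ?_⟩
  · intro V _ G D p T hp _ hT hW
    exact main V G D p T hp hT hW
  · intro V _ G D p K hp hD hK hI
    apply main V G D p K hp
    · intro v hv
      rw [hempty V G K v hv hK, zero_add]
      exact hD v
    · intro v w hv hw h
      exact absurd h (hI v w hv hw)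
  · intro V _ G D p hp hD hL
    apply main V G D p {v | D + 2 * p ≤ 2 * p * (G.neighborSet v).ncard} hp
    · intro v hv
      rw [hempty V G _ v hv (fun a ha b hb hab => hL a b hab ha hb), zero_add]
      exact hD v
    · intro v w hv _ _
      simp only [Set.mem_ofPred_eq, not_le] at hv
      exact hv

end Pool.Agent.Results.MP_b8729f_co.SplitGraphs
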